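import Mathlib

namespace Pool.Agent.Results.MP_7d59ed_nt.Limit

open Filter Topology

/-- The Prouhet-Thue-Morse sequence `t_n = (-1)^(s₂(n))`. -/
def t (n : ℕ) : ℤ := (-1) ^ (Nat.digits 2 n).sum

/-- `h_0 = 0`, `h_1 = 1`, `h_n = t_n h_(n-1) + h_(n-2)`. -/
def h : ℕ → ℤ
  | 0 => 0
  | 1 => 1
  | n + 2 => t (n + 2) * h (n + 1) + h n

lemma t_even (n : ℕ) : t (2 * n) = t n := by
  rcases Nat.eq_zero_or_pos n with rfl | hn
  · rfl
  · unfold t
    have := Nat.digits_add_two_add_one 0 (2 * n - 1)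
    rw [show 2 * n - 1 + 1 = 2 * n by omega] at this
    simp only [zero_add] at this
    rw [this]
    simp

lemma t_odd (n : ℕ) : t (2 * n + 1) = - t n := by
  unfold t
  have := Nat.digits_add_two_add_one 0 (2 * n)
  simp only [zero_add] at this
  rw [this, show (2 * n + 1) % 2 = 1 by omega, show (2 * n + 1) / 2 = n by omega]
  simp [pow_add]

lemma t_pm (n : ℕ) : t n = 1 ∨ t n = -1 := neg_one_pow_eq_or ℤ _

lemma t_block (k : ℕ) : ∀ q s, s < 2 ^ k → t (2 ^ k * q + s) = t q * t s := by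
  induction k with
  | zero =>
    intro q s hs
    obtain rfl : s = 0 := by omega
    simp [show t 0 = 1 from rfl]
  | succ k ih =>
    intro q s hs
    rcases Nat.even_or_odd' s with ⟨r, rfl | rfl⟩
    · rw [show 2 ^ (k + 1) * q + 2 * r = 2 * (2 ^ k * q + r) by ring, t_even, t_even,
        ih q r (by omega)]
    · rw [show 2 ^ (k + 1) * q + (2 * r + 1) = 2 * (2 ^ k * q + r) + 1 by ring, t_odd, t_odd,
        ih q r (by omega)]
      ring

lemma hrec (m i : ℕ) : h (m + (i + 2)) = t (m + (i + 2)) * h (m + (i + 1)) + h (m + i) := rfl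

lemma block (j : ℕ) :
    h (8 * j + 8) = t (j + 1) * h (8 * j + 7) + h (8 * j + 6) ∧
    h (8 * j + 9) = - t (j + 1) * h (8 * j + 6) ∧
    h (8 * j + 10) = t (j + 1) * h (8 * j + 7) + 2 * h (8 * j + 6) ∧
    h (8 * j + 11) = h (8 * j + 7) + t (j + 1) * h (8 * j + 6) ∧
    h (8 * j + 12) = h (8 * j + 6) ∧
    h (8 * j + 13) = h (8 * j + 7) + 2 * t (j + 1) * h (8 * j + 6) ∧
    h (8 * j + 14) = t (j + 1) * h (8 * j + 7) + 3 * h (8 * j + 6) ∧
    h (8 * j + 15) = - t (j + 1) * h (8 * j + 6) := by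
  have ht : ∀ s < 8, t (8 * j + (s + 8)) = t (j + 1) * t s := fun s hs => by
    rw [← t_block 3 (j + 1) s hs]
    congr 1
    ring
  have e0 := hrec (8 * j) 6
  have e1 := hrec (8 * j) 7
  have e2 := hrec (8 * j) 8
  have e3 := hrec (8 * j) 9
  have e4 := hrec (8 * j) 10
  have e5 := hrec (8 * j) 11
  have e6 := hrec (8 * j) 12
  have e7 := hrec (8 * j) 13
  rw [ht 0 (by omega), show t 0 = 1 by decide] at e0
  rw [ht 1 (by omega), show t 1 = -1 by decide] at e1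
  rw [ht 2 (by omega), show t 2 = -1 by decide] at e2
  rw [ht 3 (by omega), show t 3 = 1 by decide] at e3
  rw [ht 4 (by omega), show t 4 = -1 by decide] at e4
  rw [ht 5 (by omega), show t 5 = 1 by decide] at e5
  rw [ht 6 (by omega), show t 6 = 1 by decide] at e6
  rw [ht 7 (by omega), show t 7 = -1 by decide] at e7
  norm_num at e0 e1 e2 e3 e4 e5 e6 e7
  rcases t_pm (j + 1) with e | e <;> rw [e] at e0 e1 e2 e3 e4 e5 e6 e7 ⊢ <;> omega

/-- `Z j = - h (8 j + 6)` -/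
def Z (j : ℕ) : ℤ := - h (8 * j + 6)

lemma Z_rec (j : ℕ) : Z (j + 2) = 3 * Z (j + 1) - t (j + 2) * t (j + 1) * Z j := by
  have h1 := (block (j + 1)).2.2.2.2.2.2.1
  have h2 := (block j).2.2.2.2.2.2.2
  unfold Z
  rw [show 8 * (j + 2) + 6 = 8 * (j + 1) + 14 by ring, h1,
    show 8 * (j + 1) + 7 = 8 * j + 15 by ring, h2]
  ring

lemma Z0 : Z 0 = 2 := by decide
lemma Z1 : Z 1 = 7 := by decide

lemma Z_bd (j : ℕ) : 0 < Z j ∧ 5 * Z j ≤ 2 * Z (j + 1) ∧ 2 * Z (j + 1) ≤ 7 * Z j := by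
  induction j with
  | zero => rw [Z0, Z1]; omega
  | succ j ih =>
    have := Z_rec j
    rcases t_pm (j + 2) with e | e <;> rcases t_pm (j + 1) with e' | e' <;>
      rw [e, e'] at this <;> rw [show j + 1 + 1 = j + 2 from rfl] <;> omega

lemma h_bd (j i : ℕ) (hi : i < 8) :
    Z (j + 1) ≤ 2 * |h (8 * (j + 2) + i)| ∧ |h (8 * (j + 2) + i)| ≤ 4 * Z (j + 1) := by
  obtain ⟨b0, b1, b2, b3, b4, b5, b6, b7⟩ := block (j + 1)
  have h2 := (block j).2.2.2.2.2.2.2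
  rw [show 8 * j + 15 = 8 * (j + 1) + 7 by ring] at h2
  have hz := Z_bd j
  unfold Z at *
  have : ∀ i, 8 * (j + 2) + i = 8 * (j + 1) + (i + 8) := fun i => by ring
  rw [this]
  have key : ∀ x y u v : ℤ, (u = 1 ∨ u = -1) → 0 < -y → -(2 * x) ≤ -y → 2 * x ≤ -y →
      (v = u * x + y ∨ v = -u * y ∨ v = u * x + 2 * y ∨ v = x + u * y ∨ v = y ∨
        v = x + 2 * u * y ∨ v = u * x + 3 * y) → -y ≤ 2 * |v| ∧ |v| ≤ 4 * -y := by
    rintro x y u v (rfl | rfl) h1 h2 h3 h4 <;> rcases abs_cases v with h5 | h5 <;> omega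
  have hx : -(2 * h (8 * (j + 1) + 7)) ≤ -h (8 * (j + 1) + 6) ∧
      2 * h (8 * (j + 1) + 7) ≤ -h (8 * (j + 1) + 6) := by
    rcases t_pm (j + 1) with e | e <;> rw [e] at h2 <;> omega
  refine key _ _ _ _ (t_pm (j + 1 + 1)) (by omega) hx.1 hx.2 ?_
  interval_cases i
  · exact Or.inl b0
  · exact Or.inr (Or.inl b1)
  · exact Or.inr (Or.inr (Or.inl b2))
  · exact Or.inr (Or.inr (Or.inr (Or.inl b3)))
  · exact Or.inr (Or.inr (Or.inr (Or.inr (Or.inl b4))))
  · exact Or.inr (Or.inr (Or.inr (Or.inr (Or.inr (Or.inl b5)))))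
  · exact Or.inr (Or.inr (Or.inr (Or.inr (Or.inr (Or.inr b6)))))
  · exact Or.inr (Or.inl b7)

noncomputable def ρ (j : ℕ) : ℝ := (Z (j + 1) : ℝ) / Z j

lemma Zpos (j : ℕ) : (0 : ℝ) < Z j := by exact_mod_cast (Z_bd j).1

lemma ρ_bd (j : ℕ) : 5 / 2 ≤ ρ j ∧ ρ j ≤ 7 / 2 := by
  have h1 : (5 : ℝ) * Z j ≤ 2 * Z (j + 1) := by exact_mod_cast (Z_bd j).2.1
  have h2 : (2 : ℝ) * Z (j + 1) ≤ 7 * Z j := by exact_mod_cast (Z_bd j).2.2
  unfold ρ
  rw [le_div_iff₀ (Zpos j), div_le_iff₀ (Zpos j)]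
  constructor <;> linarith

lemma ρ_rec (j : ℕ) : ρ (j + 1) = 3 - ((t (j + 2) * t (j + 1) : ℤ) : ℝ) / ρ j := by
  have h1 := Zpos j
  have h2 := Zpos (j + 1)
  unfold ρ
  rw [show j + 1 + 1 = j + 2 from rfl, Z_rec]
  push_cast
  field_simp

lemma ρ_close (k q : ℕ) : ∀ s, s + 1 < 2 ^ k → |ρ (2 ^ k * q + s) - ρ s| ≤ (1 / 2) ^ s := by
  intro s
  induction s with
  | zero =>
    intro _
    have h1 := ρ_bd (2 ^ k * q + 0)
    have h2 := ρ_bd 0
    rw [abs_le]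
    constructor <;> simp only [pow_zero] <;> linarith
  | succ s ih =>
    intro hs
    have h0 := ih (by omega)
    have e : t (2 ^ k * q + s + 2) * t (2 ^ k * q + s + 1) = t (s + 2) * t (s + 1) := by
      rw [add_assoc, add_assoc, t_block k q _ (by omega), t_block k q _ (by omega)]
      rcases t_pm q with e | e <;> rw [e] <;> ring
    rw [← add_assoc, ρ_rec, ρ_rec, e]
    have h1 := ρ_bd (2 ^ k * q + s)
    have h2 := ρ_bd s
    set a := ρ (2 ^ k * q + s)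
    set b := ρ s
    have ha : 0 < a := by linarith
    have hb : 0 < b := by linarith
    have hab : 2 ≤ a * b := by nlinarith
    have h3 : |((t (s + 2) * t (s + 1) : ℤ) : ℝ)| = 1 := by
      rcases t_pm (s + 2) with e | e <;> rcases t_pm (s + 1) with e' | e' <;> simp [e, e']
    rw [show 3 - ((t (s + 2) * t (s + 1) : ℤ) : ℝ) / a - (3 - ((t (s + 2) * t (s + 1) : ℤ) : ℝ) / b)
      = ((t (s + 2) * t (s + 1) : ℤ) : ℝ) * ((a - b) / (a * b)) by field_simp; ring, abs_mul, h3,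
      one_mul, abs_div, abs_of_pos (mul_pos ha hb), div_le_iff₀ (mul_pos ha hb), pow_succ]
    have h4 : (0 : ℝ) < (1 / 2) ^ s := by positivity
    nlinarith

lemma log_lip {a b : ℝ} (ha : 1 ≤ a) (hb : 1 ≤ b) : |Real.log a - Real.log b| ≤ |a - b| := by
  have key : ∀ a b : ℝ, 1 ≤ a → 1 ≤ b → Real.log a - Real.log b ≤ |a - b| := by
    intro a b ha hb
    rw [← Real.log_div (by linarith) (by linarith)]
    refine (Real.log_le_sub_one_of_pos (by positivity)).trans ?_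
    rw [div_sub_one (by linarith), div_le_iff₀ (by linarith)]
    have := le_abs_self (a - b)
    have := abs_nonneg (a - b)
    nlinarith
  rw [abs_le]
  constructor
  · have := key b a hb ha
    rw [abs_sub_comm] at this
    linarith
  · exact key a b ha hb

noncomputable def L (n : ℕ) : ℝ := Real.log (Z n) - Real.log 2

lemma L_zero : L 0 = 0 := by simp [L, Z0]

lemma L_succ (n : ℕ) : L (n + 1) = L n + Real.log (ρ n) := by
  unfold L ρ
  rw [Real.log_div (Zpos _).ne' (Zpos _).ne']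
  ring

lemma logρ (n : ℕ) : 0 ≤ Real.log (ρ n) ∧ Real.log (ρ n) ≤ 3 := by
  have := ρ_bd n
  refine ⟨Real.log_nonneg (by linarith), ?_⟩
  have := Real.log_le_sub_one_of_pos (show 0 < ρ n by linarith)
  linarith

lemma L_step (m s : ℕ) : 0 ≤ L (m + s) - L m ∧ L (m + s) - L m ≤ 3 * s := by
  induction s with
  | zero => simp
  | succ s ih =>
    rw [← add_assoc, L_succ]
    have := logρ (m + s)
    push_cast
    constructor <;> linarith

lemma L_close (k q : ℕ) : ∀ s, s < 2 ^ k →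
    |L (2 ^ k * q + s) - L (2 ^ k * q) - L s| ≤ 2 - 2 * (1 / 2) ^ s := by
  intro s
  induction s with
  | zero => intro _; simp [L_zero]
  | succ s ih =>
    intro hs
    have h1 := ih (by omega)
    have h2 := (log_lip (by linarith [(ρ_bd (2 ^ k * q + s)).1]) (by linarith [(ρ_bd s).1])).trans
      (ρ_close k q s hs)
    rw [← add_assoc, L_succ, L_succ, pow_succ]
    rw [abs_le] at *
    constructor <;> linarith

lemma L_block (k q : ℕ) : |L (2 ^ k * (q + 1)) - L (2 ^ k * q) - L (2 ^ k)| ≤ 3 := by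
  obtain ⟨s, hs⟩ : ∃ s, 2 ^ k = s + 1 := ⟨2 ^ k - 1, by have := Nat.two_pow_pos k; omega⟩
  have h1 := L_close k q s (by omega)
  have h2 := log_lip (a := ρ (2 ^ k * q + s)) (b := ρ s) (by linarith [(ρ_bd (2 ^ k * q + s)).1])
    (by linarith [(ρ_bd s).1])
  have h3 : |ρ (2 ^ k * q + s) - ρ s| ≤ 1 := by
    have h1 := ρ_bd (2 ^ k * q + s)
    have h2 := ρ_bd s
    rw [abs_le]
    constructor <;> linarith
  have h4 : L (2 ^ k) = L s + Real.log (ρ s) := by rw [hs, L_succ]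
  rw [show 2 ^ k * (q + 1) = 2 ^ k * q + s + 1 by rw [mul_add, mul_one, add_assoc, ← hs], L_succ,
    h4]
  have h5 : (0 : ℝ) < (1 / 2) ^ s := by positivity
  have h6 := h2.trans h3
  rw [abs_le] at *
  constructor <;> linarith

lemma L_mul (k q : ℕ) : |L (2 ^ k * q) - q * L (2 ^ k)| ≤ 3 * q := by
  induction q with
  | zero => simp [L_zero]
  | succ q ih =>
    have := L_block k q
    push_cast
    rw [abs_le] at *
    constructor <;> linarith

lemma L_lin (k n : ℕ) : |L n - L (2 ^ k) / 2 ^ k * n| ≤ 3 * 2 ^ k + 3 / 2 ^ k * n := by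
  have hK : (0 : ℝ) < 2 ^ k := by positivity
  have h1 := L_mul k (n / 2 ^ k)
  have h2 := L_step (2 ^ k * (n / 2 ^ k)) (n % 2 ^ k)
  have h3 := Nat.div_add_mod n (2 ^ k)
  rw [h3] at h2
  have h4 : ((n % 2 ^ k : ℕ) : ℝ) ≤ 2 ^ k := by
    exact_mod_cast (Nat.mod_lt n (Nat.two_pow_pos k)).le
  have h5 := L_step 0 (2 ^ k)
  rw [zero_add, L_zero, sub_zero] at h5
  push_cast at h5
  have h6 : (n : ℝ) = 2 ^ k * (n / 2 ^ k : ℕ) + (n % 2 ^ k : ℕ) := by exact_mod_cast h3.symm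
  have hs : (0 : ℝ) ≤ (n % 2 ^ k : ℕ) := by positivity
  generalize ((n / 2 ^ k : ℕ) : ℝ) = q at *
  generalize ((n % 2 ^ k : ℕ) : ℝ) = s at *
  have e1 : L (2 ^ k) / 2 ^ k * n = q * L (2 ^ k) + L (2 ^ k) / 2 ^ k * s := by
    rw [h6]; field_simp
  have e2 : 3 / 2 ^ k * (n : ℝ) = 3 * q + 3 / 2 ^ k * s := by
    rw [h6]; field_simp
  have e3 : 0 ≤ 3 / 2 ^ k * s := by positivity
  have e4 : 0 ≤ L (2 ^ k) / 2 ^ k * s := mul_nonneg (div_nonneg h5.1 hK.le) hs
  have e5 : L (2 ^ k) / 2 ^ k ≤ 3 := by rw [div_le_iff₀ hK]; exact h5.2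
  have e6 : L (2 ^ k) / 2 ^ k * s ≤ 3 * 2 ^ k := by nlinarith
  rw [e1, e2]
  rw [abs_le] at *
  constructor <;> linarith

noncomputable def b (n : ℕ) : ℝ := Real.log |(h n : ℝ)|

lemma b_lin (k : ℕ) : ∃ C : ℝ, ∀ n, 16 ≤ n → h n ≠ 0 ∧
    |b n - L (2 ^ k) / 2 ^ k / 8 * n| ≤ C + 3 / 2 ^ k / 8 * n := by
  refine ⟨3 * 2 ^ k + 10, fun n hn => ?_⟩
  obtain ⟨j, i, hi, rfl⟩ : ∃ j i, i < 8 ∧ n = 8 * (j + 2) + i :=
    ⟨n / 8 - 2, n % 8, Nat.mod_lt _ (by norm_num), by omega⟩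
  have h1 := h_bd j i hi
  have h2 := Zpos (j + 1)
  have h3 : (Z (j + 1) : ℝ) ≤ 2 * |(h (8 * (j + 2) + i) : ℝ)| := by exact_mod_cast h1.1
  have h4 : |(h (8 * (j + 2) + i) : ℝ)| ≤ 4 * (Z (j + 1) : ℝ) := by exact_mod_cast h1.2
  have h5 : 0 < |(h (8 * (j + 2) + i) : ℝ)| := by linarith
  refine ⟨by exact_mod_cast abs_pos.1 h5, ?_⟩
  have h6 := Real.log_le_log h2 h3
  have h7 := Real.log_le_log h5 h4
  rw [Real.log_mul (by norm_num) h5.ne'] at h6
  rw [Real.log_mul (by norm_num) h2.ne', show (4 : ℝ) = 2 ^ 2 by norm_num, Real.log_pow] at h7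
  have h8 := Real.log_two_lt_d9
  have h9 := L_lin k (j + 1)
  have hK : (0 : ℝ) < 2 ^ k := by positivity
  have h10 := L_step 0 (2 ^ k)
  rw [zero_add, L_zero, sub_zero] at h10
  push_cast at h10
  have e5 : L (2 ^ k) / 2 ^ k ≤ 3 := by rw [div_le_iff₀ hK]; exact h10.2
  have e6 : 0 ≤ L (2 ^ k) / 2 ^ k := div_nonneg h10.1 hK.le
  have e7 : (0 : ℝ) < 3 / 2 ^ k := by positivity
  have e8 : (i : ℝ) ≤ 8 := by exact_mod_cast hi.le
  have e9 : (0 : ℝ) ≤ i := by positivity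
  have e10 : L (j + 1) = Real.log (Z (j + 1)) - Real.log 2 := rfl
  unfold b
  set c := L (2 ^ k) / 2 ^ k
  set e := (3 : ℝ) / 2 ^ k
  have e11 : 0 ≤ c * i := mul_nonneg e6 e9
  have e12 : c * i ≤ 24 := by nlinarith
  have e13 : 0 ≤ e * i := mul_nonneg e7.le e9
  push_cast at *
  rw [abs_le] at *
  constructor <;> nlinarith

lemma ev (k : ℕ) (δ : ℝ) (hδ : 0 < δ) :
    ∀ᶠ n : ℕ in atTop, |b n / n - L (2 ^ k) / 2 ^ k / 8| ≤ 3 / 2 ^ k / 8 + δ := by
  obtain ⟨C, hC⟩ := b_lin k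
  have h1 : ∀ᶠ n : ℕ in atTop, C / n < δ :=
    (tendsto_const_div_atTop_nhds_zero_nat C).eventually (gt_mem_nhds hδ)
  filter_upwards [h1, eventually_ge_atTop 16] with n h2 hn
  have hn' : (0 : ℝ) < n := by exact_mod_cast (by omega : 0 < n)
  have h3 := (hC n hn).2
  rw [div_lt_iff₀ hn'] at h2
  rw [show b n / n - L (2 ^ k) / 2 ^ k / 8 = (b n - L (2 ^ k) / 2 ^ k / 8 * n) / n by field_simp,
    abs_div, abs_of_pos hn', div_le_iff₀ hn']
  linarith

lemma conv : ∃ γ : ℝ, Tendsto (fun n : ℕ => b n / n) atTop (𝓝 γ) ∧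
    ∀ k, |γ - L (2 ^ k) / 2 ^ k / 8| ≤ 3 / 2 ^ k / 8 := by
  have hc : CauchySeq fun n : ℕ => b n / n := by
    rw [Metric.cauchySeq_iff]
    intro ε hε
    obtain ⟨k, hk⟩ := exists_pow_lt_of_lt_one (show 0 < ε / 4 by positivity)
      (show (1 / 2 : ℝ) < 1 by norm_num)
    obtain ⟨N, hN⟩ := eventually_atTop.1 (ev k (ε / 4) (by positivity))
    refine ⟨N, fun m hm n hn => ?_⟩
    have h1 := hN m hm
    have h2 := hN n hn
    have h3 : (3 : ℝ) / 2 ^ k / 8 = 3 / 8 * (1 / 2) ^ k := by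
      rw [one_div, inv_pow]; field_simp
    rw [Real.dist_eq, abs_lt]
    rw [abs_le] at h1 h2
    constructor <;> linarith
  obtain ⟨γ, hγ⟩ := cauchySeq_tendsto_of_complete hc
  refine ⟨γ, hγ, fun k => le_of_forall_pos_le_add fun δ hδ => ?_⟩
  exact le_of_tendsto ((hγ.sub_const _).abs) (ev k δ hδ)

def it : ℕ → ℕ → ℕ → ℕ → ℕ
  | 0, _, a, _ => a
  | _ + 1, _, _, 0 => 0
  | f + 1, j, a, c + 1 =>
    it f (j + 1) (c + 1) (if t (j + 2) = t (j + 1) then 3 * (c + 1) - a else 3 * (c + 1) + a)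

lemma it_eq (f : ℕ) : ∀ j a c : ℕ, (a : ℤ) = Z j → (c : ℤ) = Z (j + 1) →
    (it f j a c : ℤ) = Z (j + f) := by
  induction f with
  | zero => intro j a c h1 _; exact h1
  | succ f ih =>
    intro j a c h1 h2
    have h3 := Z_bd j
    have h4 := Z_rec j
    obtain ⟨c, rfl⟩ : ∃ c', c = c' + 1 := ⟨c - 1, by omega⟩
    rw [it, ih (j + 1) _ _ h2, show j + 1 + f = j + (f + 1) by ring]
    rw [show j + 1 + 1 = j + 2 from rfl]
    rcases t_pm (j + 2) with e | e <;> rcases t_pm (j + 1) with e' | e' <;>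
      rw [e, e'] at h4 ⊢ <;> simp only [reduceIte, Int.reduceNeg, Int.reduceEq] <;> omega

lemma num1 : 42 * 11520 ^ 32768 < it 4096 0 2 7 * 10000 ^ 32768 := by decide +kernel

lemma num2 : 21 * it 4096 0 2 7 * 10000 ^ 32768 < 2 * 11525 ^ 32768 := by decide +kernel

/-- The limit of `|h_n|^(1/n)` exists, and lies between `1.152` and `1.1525`. -/
theorem result : ∃ g : ℝ, Tendsto (fun n : ℕ => |(h n : ℝ)| ^ (1 / (n : ℝ))) atTop (𝓝 g) ∧
    1.152 < g ∧ g < 1.1525 := by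
  obtain ⟨γ, h1, h2⟩ := conv
  have hZ : ((it 4096 0 2 7 : ℕ) : ℝ) = Z 4096 := by
    exact_mod_cast it_eq 4096 0 2 7 Z0.symm Z1.symm
  have h3 := h2 12
  have hp := Zpos 4096
  have he : (3 : ℝ) < Real.log 21 := by
    rw [Real.lt_log_iff_exp_lt (by norm_num), show (3 : ℝ) = (3 : ℕ) * 1 by norm_num,
      Real.exp_nat_mul]
    have := Real.exp_one_lt_d9
    have h0 := Real.exp_pos 1
    calc Real.exp 1 ^ 3 < 2.7182818286 ^ 3 := by gcongr
      _ < 21 := by norm_num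
  rw [show (2 : ℕ) ^ 12 = 4096 by norm_num, abs_le] at h3
  unfold L at h3
  refine ⟨Real.exp γ, ?_, ?_, ?_⟩
  · refine ((Real.continuous_exp.tendsto γ).comp h1).congr' ?_
    obtain ⟨C, hC⟩ := b_lin 0
    filter_upwards [eventually_ge_atTop 16] with n hn
    have : 0 < |(h n : ℝ)| := abs_pos.2 (by exact_mod_cast (hC n hn).1)
    rw [Real.rpow_def_of_pos this, mul_one_div]
    rfl
  · rw [← Real.log_lt_iff_lt_exp (by norm_num)]
    have h4 : (21 : ℝ) * 2 * (11520 : ℝ) ^ 32768 < Z 4096 * (10000 : ℝ) ^ 32768 := by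
      rw [← hZ, show (21 : ℝ) * 2 = 42 by norm_num]
      have := (Nat.cast_lt (α := ℝ)).2 num1
      simpa only [Nat.cast_mul, Nat.cast_pow, Nat.cast_ofNat] using this
    have h5 := Real.log_lt_log (by positivity) h4
    rw [Real.log_mul (by norm_num) (by positivity), Real.log_mul (by norm_num) (by norm_num),
      Real.log_mul hp.ne' (by positivity), Real.log_pow, Real.log_pow] at h5
    rw [show (1.152 : ℝ) = 11520 / 10000 by norm_num, Real.log_div (by norm_num) (by norm_num)]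
    push_cast at h5
    linarith
  · rw [← Real.lt_log_iff_exp_lt (by norm_num)]
    have h4 : (21 : ℝ) * Z 4096 * (10000 : ℝ) ^ 32768 < 2 * (11525 : ℝ) ^ 32768 := by
      rw [← hZ]
      have := (Nat.cast_lt (α := ℝ)).2 num2
      simpa only [Nat.cast_mul, Nat.cast_pow, Nat.cast_ofNat] using this
    have h5 := Real.log_lt_log (by positivity) h4
    rw [Real.log_mul (by positivity) (by positivity), Real.log_mul (by norm_num) hp.ne',
      Real.log_mul (by norm_num) (by positivity), Real.log_pow, Real.log_pow] at h5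
    rw [show (1.1525 : ℝ) = 11525 / 10000 by norm_num, Real.log_div (by norm_num) (by norm_num)]
    push_cast at h5
    linarith

end Pool.Agent.Results.MP_7d59ed_nt.Limit
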